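import Pool.Agent.helper96.S5.SpecR

/-!
# MP_0b485e_lc, level 5: row GAM
-/

set_option autoImplicit false

namespace S5

open PF

theorem GAM_fin (n : ℕ) : ∀ P : List ℕ → ℕ → Prop, (∀ g, ∃ s0, ∀ s, s0 ≤ s → P g s) →
    ∃ s0, ∀ g : List ℕ, g.length = n → (∀ x ∈ g, x ≤ 2) → ∀ s, s0 ≤ s → P g s := by
  induction n with
  | zero =>
    intro P hP
    obtain ⟨s0, h0⟩ := hP []
    refine ⟨s0, fun g hg _ s hs => ?_⟩
    rw [List.length_eq_zero_iff] at hg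
    rw [hg]
    exact h0 s hs
  | succ n ih =>
    intro P hP
    obtain ⟨a0, h0⟩ := ih (fun g s => P (0 :: g) s) (fun g => hP (0 :: g))
    obtain ⟨a1, h1⟩ := ih (fun g s => P (1 :: g) s) (fun g => hP (1 :: g))
    obtain ⟨a2, h2⟩ := ih (fun g s => P (2 :: g) s) (fun g => hP (2 :: g))
    refine ⟨a0 + a1 + a2, fun g hg hx s hs => ?_⟩
    cases g with
    | nil => simp at hg
    | cons x g =>
      have hg' : g.length = n := by simpa using hg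
      have hx0 : x ≤ 2 := hx x (by simp)
      have hx1 : ∀ y ∈ g, y ≤ 2 := fun y hy => hx y (by simp [hy])
      have hc : x = 0 ∨ x = 1 ∨ x = 2 := by omega
      rcases hc with hc | hc | hc
      · rw [hc]
        exact h0 g hg' hx1 s (by omega)
      · rw [hc]
        exact h1 g hg' hx1 s (by omega)
      · rw [hc]
        exact h2 g hg' hx1 s (by omega)

theorem GAM_row (hS3U : S3U_stmt) (hCOH : COH_stmt) (hTTN : TTN_stmt) (hVLX : VLX_stmt) (hGDD : GDD_stmt) (hRSM : RSM_stmt) (hCM1 : CM1_stmt) (hCM2 : CM2_stmt) : GAM_stmt := by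
  intro X hX l hl i hC
  have hcp : X.B.Cp := ⟨(hCM1 X hX).1, (hCM1 X hX).2.1, (hCM1 X hX).2.2, hCM2 X hX⟩
  have hlam : 0 < X.B.lam := hX.m0
  obtain ⟨hT1, -, -, -, hT5⟩ := hTTN X hX
  have hev : ∀ g0 : List ℕ, ∃ Q : Prop, ∃ s0, ∀ s, s0 ≤ s →
      ((∃ g, X.B.RS (X.ls s) g l ∧ g0 <+: g) ↔ Q) := by
    intro g0
    obtain ⟨b, hb⟩ := hS3U X.B hcp hlam l g0
    have hb' : ∀ k, (∃ g, X.B.RS k g l ∧ g0 <+: g) ↔ UI X.TT b k := fun k => (hb k).trans (hT5 b k).symm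
    rcases hCOH X.TT hT1 b with ⟨s0, h⟩ | ⟨s0, h⟩
    · refine ⟨True, s0, fun s hs => ?_⟩
      rw [hb']
      exact ⟨fun _ => trivial, fun _ => h s hs⟩
    · refine ⟨False, s0, fun s hs => ?_⟩
      rw [hb']
      exact ⟨fun h' => h s hs h', fun h' => h'.elim⟩
  choose Q hQ using hev
  obtain ⟨s0, hs0⟩ := GAM_fin (i + 1) (fun g0 s => ((∃ g, X.B.RS (X.ls s) g l ∧ g0 <+: g) ↔ Q g0)) hQ
  have hbad : ∀ (k : ℕ) (g0 : List ℕ), (∃ g, X.B.RS k g l ∧ g0 <+: g) → ∀ x ∈ g0, x ≤ 2 := by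
    rintro k g0 ⟨g, hg, hpre⟩ x hx
    have hx' : x ∈ g := hpre.subset hx
    obtain ⟨j, hj, hjx⟩ := List.getElem_of_mem hx'
    have h2 := (hRSM X.B k (hGDD X hX k) g g l hg).2.1 j
    have h3 : ent g j = x := by
      unfold ent
      rw [List.getD_eq_getElem _ _ hj, hjx]
    rw [h3] at h2
    exact h2
  have heq : ∀ s, s0 ≤ s → ∀ g0 : List ℕ, g0.length = i + 1 →
      ((∃ g, X.B.RS (X.ls s0) g l ∧ g0 <+: g) ↔ ∃ g, X.B.RS (X.ls s) g l ∧ g0 <+: g) := by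
    intro s hs g0 hg0
    by_cases hx : ∀ x ∈ g0, x ≤ 2
    · exact (hs0 g0 hg0 hx s0 le_rfl).trans (hs0 g0 hg0 hx s hs).symm
    · exact ⟨fun h => (hx (hbad _ g0 h)).elim, fun h => (hx (hbad _ g0 h)).elim⟩
  obtain ⟨h1, -, h3⟩ := hVLX X.B (X.ls s0) (hGDD X hX _) l hl i
  rcases h1 (hC _) with h | h
  · exact Or.inl ⟨s0, fun s hs => h3 (X.ls s) (hGDD X hX _) (heq s hs) 1 h⟩
  · exact Or.inr ⟨s0, fun s hs => h3 (X.ls s) (hGDD X hX _) (heq s hs) 2 h⟩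

end S5
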