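import Pool.Agent.helper96.S5.SpecL

/-!
# MP_0b485e_lc, level 5: row LPX
-/

set_option autoImplicit false

namespace S5

open PF

theorem LPX_tm {L : Type} [Lattice L] [BoundedOrder L] (t : Tm) :
    ∃ K : ℕ, ∀ e e' : ℕ → L, (∀ i < K, e i = e' i) → t.ev e = t.ev e' := by
  induction t with
  | var i => exact ⟨i + 1, fun e e' h => h i (Nat.lt_succ_self i)⟩
  | bot => exact ⟨0, fun e e' _ => rfl⟩
  | top => exact ⟨0, fun e e' _ => rfl⟩
  | sup a b ha hb =>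
    obtain ⟨K1, h1⟩ := ha
    obtain ⟨K2, h2⟩ := hb
    refine ⟨max K1 K2, fun e e' h => ?_⟩
    show a.ev e ⊔ b.ev e = a.ev e' ⊔ b.ev e'
    rw [h1 e e' (fun i hi => h i (lt_max_of_lt_left hi)), h2 e e' (fun i hi => h i (lt_max_of_lt_right hi))]
  | inf a b ha hb =>
    obtain ⟨K1, h1⟩ := ha
    obtain ⟨K2, h2⟩ := hb
    refine ⟨max K1 K2, fun e e' h => ?_⟩
    show a.ev e ⊓ b.ev e = a.ev e' ⊓ b.ev e'
    rw [h1 e e' (fun i hi => h i (lt_max_of_lt_left hi)), h2 e e' (fun i hi => h i (lt_max_of_lt_right hi))]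

theorem LPX_fm {L : Type} [Lattice L] [BoundedOrder L] (φ : Fm) :
    ∃ K : ℕ, ∀ e e' : ℕ → L, (∀ i < K, e i = e' i) → (φ.Holds e ↔ φ.Holds e') := by
  induction φ with
  | eq a b =>
    obtain ⟨K1, h1⟩ := LPX_tm (L := L) a
    obtain ⟨K2, h2⟩ := LPX_tm (L := L) b
    refine ⟨max K1 K2, fun e e' h => ?_⟩
    show a.ev e = b.ev e ↔ a.ev e' = b.ev e'
    rw [h1 e e' (fun i hi => h i (lt_max_of_lt_left hi)), h2 e e' (fun i hi => h i (lt_max_of_lt_right hi))]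
  | neg a ha =>
    obtain ⟨K1, h1⟩ := ha
    exact ⟨K1, fun e e' h => not_congr (h1 e e' h)⟩
  | and a b ha hb =>
    obtain ⟨K1, h1⟩ := ha
    obtain ⟨K2, h2⟩ := hb
    exact ⟨max K1 K2, fun e e' h => and_congr (h1 e e' (fun i hi => h i (lt_max_of_lt_left hi)))
      (h2 e e' (fun i hi => h i (lt_max_of_lt_right hi)))⟩
  | or a b ha hb =>
    obtain ⟨K1, h1⟩ := ha
    obtain ⟨K2, h2⟩ := hb
    exact ⟨max K1 K2, fun e e' h => or_congr (h1 e e' (fun i hi => h i (lt_max_of_lt_left hi)))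
      (h2 e e' (fun i hi => h i (lt_max_of_lt_right hi)))⟩

theorem LPX_xm {L : Type} [Lattice L] [BoundedOrder L] (μ : XM) :
    ∃ K : ℕ, ∀ (δ : ℕ → L → L → L → L → Prop) (e e' : ℕ → L), (∀ i < K, e i = e' i) →
      (XM.ev δ e μ ↔ XM.ev δ e' μ) := by
  induction μ with
  | fm φ =>
    obtain ⟨K, h⟩ := LPX_fm (L := L) φ
    exact ⟨K, fun δ e e' he => h e e' he⟩
  | rl r i1 i2 i3 i4 =>
    refine ⟨i1 + i2 + i3 + i4 + 1, fun δ e e' h => ?_⟩
    show δ r (e i1) (e i2) (e i3) (e i4) ↔ δ r (e' i1) (e' i2) (e' i3) (e' i4)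
    rw [h i1 (by omega), h i2 (by omega), h i3 (by omega), h i4 (by omega)]
  | neg a ha =>
    obtain ⟨K1, h1⟩ := ha
    exact ⟨K1, fun δ e e' h => not_congr (h1 δ e e' h)⟩
  | and a b ha hb =>
    obtain ⟨K1, h1⟩ := ha
    obtain ⟨K2, h2⟩ := hb
    exact ⟨max K1 K2, fun δ e e' h => and_congr (h1 δ e e' (fun i hi => h i (lt_max_of_lt_left hi)))
      (h2 δ e e' (fun i hi => h i (lt_max_of_lt_right hi)))⟩
  | or a b ha hb =>
    obtain ⟨K1, h1⟩ := ha
    obtain ⟨K2, h2⟩ := hb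
    exact ⟨max K1 K2, fun δ e e' h => or_congr (h1 δ e e' (fun i hi => h i (lt_max_of_lt_left hi)))
      (h2 δ e e' (fun i hi => h i (lt_max_of_lt_right hi)))⟩

theorem LPX_st {L : Type} (K : ℕ) (m : (ℕ → L) → Prop)
    (hm : ∀ e e' : ℕ → L, (∀ i < K, e i = e' i) → (m e ↔ m e')) (q : List Bool) :
    ∀ e e' : ℕ → L, (∀ i < K, e i = e' i) → (St L q m e ↔ St L q m e') := by
  induction q with
  | nil => exact hm
  | cons b q ih =>
    intro e e' h
    have hc : ∀ x : L, ∀ i < K, cns x e i = cns x e' i := by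
      intro x i hi
      cases i with
      | zero => rfl
      | succ i => exact h i (by omega)
    cases b with
    | true => exact forall_congr' (fun x => ih _ _ (hc x))
    | false => exact exists_congr (fun x => ih _ _ (hc x))

theorem LPX_row : LPX_stmt := by
  intro L _ _ n b P ⟨q, μ, _, hP⟩
  obtain ⟨K, hK⟩ := LPX_xm (L := L) μ
  refine ⟨K, fun δ e e' h => ?_⟩
  rw [hP δ e, hP δ e']
  exact LPX_st K _ (fun f f' hf => hK δ f f' hf) q e e' h

end S5
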